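import Pool.Agent.Y766.R10.Stm
import Pool.Agent.Y766.R3.TD

/-!
Project R10 (helper766), job MSQ: the mollified mean square over a coset, short ranges.
-/

set_option autoImplicit false

namespace Pool.Agent.Y756.R10

open Finset
open Pool.Agent.Y766.R3 (FF orth cong_sum)
open Pool.Agent.Y766.R10

/-- the coefficients of the product -/
noncomputable def bb (q κ : ℝ) (G : ℝ → ℂ) (k : ℕ) : ℂ :=
  ∑ l ∈ k.divisors, (mw q κ l : ℂ) * G ((Real.log k - Real.log l) / Real.log q)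

lemma mw_zero {q κ : ℝ} {l : ℕ} (h : ⌊q ^ κ⌋₊ < l) : mw q κ l = 0 := by
  unfold mw
  rw [if_neg]
  exact not_le.2 (Nat.lt_of_floor_lt h)

lemma bb_eq (q κ : ℝ) (G : ℝ → ℂ) {k : ℕ} (hk : 1 ≤ k) :
    bb q κ G k = ∑ l ∈ Icc 1 ⌊q ^ κ⌋₊, if l ∣ k then
      (mw q κ l : ℂ) * G ((Real.log k - Real.log l) / Real.log q) else 0 := by
  classical
  unfold bb
  rw [← sum_filter]
  symm
  apply sum_subset
  · intro l hl
    rw [mem_filter, mem_Icc] at hl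
    rw [Nat.mem_divisors]
    exact ⟨hl.2, by omega⟩
  · intro l hl hl'
    rw [Nat.mem_divisors] at hl
    have h1 : 1 ≤ l := Nat.pos_of_dvd_of_pos hl.1 hk
    have h2 : ⌊q ^ κ⌋₊ < l := by
      by_contra h
      apply hl'
      rw [mem_filter, mem_Icc]
      exact ⟨⟨h1, by omega⟩, hl.1⟩
    rw [mw_zero h2]
    simp

lemma G_zero {q κ : ℝ} (hq : 1 < q) (hκ1 : κ ≤ 1 / 100) {G : ℝ → ℂ}
    (hG : ∀ v, 1 / 2 + 2 * κ < v → G v = 0) {k l : ℕ} (hl : 1 ≤ l) (hlq : (l : ℝ) ≤ q ^ κ)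
    (hk : q ≤ k) : G ((Real.log k - Real.log l) / Real.log q) = 0 := by
  apply hG
  have hL : 0 < Real.log q := Real.log_pos hq
  rw [lt_div_iff₀ hL]
  have h1 : Real.log q ≤ Real.log k := Real.log_le_log (by linarith) hk
  have h2 : Real.log l ≤ κ * Real.log q := by
    have h3 := Real.log_le_log (by exact_mod_cast hl : (0 : ℝ) < l) hlq
    rwa [Real.log_rpow (by linarith)] at h3
  nlinarith [mul_le_mul_of_nonneg_right hκ1 hL.le]

lemma bb_zero {q κ : ℝ} (hq : 1 < q) (hκ1 : κ ≤ 1 / 100) {G : ℝ → ℂ}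
    (hG : ∀ v, 1 / 2 + 2 * κ < v → G v = 0) {k : ℕ} (hk : q ≤ k) : bb q κ G k = 0 := by
  unfold bb
  apply sum_eq_zero
  intro l hl
  have h1 : 1 ≤ l := Nat.pos_of_mem_divisors hl
  by_cases h : (l : ℝ) ≤ q ^ κ
  · rw [G_zero hq hκ1 hG h1 h hk, mul_zero]
  · unfold mw
    rw [if_neg h]
    simp

/-- the product of the smooth sum and the mollifier -/
lemma prod_eq {q : ℕ} (hq : 2 ≤ q) (ψ : DirichletCharacter ℂ q) {κ : ℝ} (t : ℝ)
    (hκ1 : κ ≤ 1 / 100) {G : ℝ → ℂ} (hG : ∀ v, 1 / 2 + 2 * κ < v → G v = 0) :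
    AA ψ G t * MM ψ κ t = ∑ k ∈ Icc 1 (q - 1), ψ (k : ZMod q) *
      ((k : ℂ) ^ (-(1 / 2 + (t : ℂ) * Complex.I)) * bb q κ G k) := by
  classical
  have hq1 : (1 : ℝ) < q := by exact_mod_cast (by omega : 1 < q)
  set z : ℂ := -(1 / 2 + (t : ℂ) * Complex.I) with hz
  set H : ℕ → ℕ → ℂ := fun k l => ψ (k : ZMod q) * ((k : ℂ) ^ z *
    ((mw q κ l : ℂ) * G ((Real.log k - Real.log l) / Real.log q))) with hH
  have hF : ∀ n ∈ Icc 1 q, ∀ l ∈ Icc 1 ⌊(q : ℝ) ^ κ⌋₊,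
      (G (Real.log n / Real.log q) * (ψ (n : ZMod q) * (n : ℂ) ^ z)) *
        ((mw q κ l : ℂ) * (ψ (l : ZMod q) * (l : ℂ) ^ z)) =
      ∑ k ∈ Icc 1 (q - 1), if k = n * l then H k l else 0 := by
    intro n hn l hl
    rw [mem_Icc] at hn hl
    have hn0 : (0 : ℝ) < n := by exact_mod_cast hn.1
    have hl0 : (0 : ℝ) < l := by exact_mod_cast hl.1
    have hnl : 1 ≤ n * l := Nat.mul_pos hn.1 hl.1
    have hlog : Real.log ((n * l : ℕ) : ℝ) - Real.log l = Real.log n := by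
      push_cast
      rw [Real.log_mul hn0.ne' hl0.ne']
      ring
    by_cases h : n * l ≤ q - 1
    · rw [sum_ite_eq' (Icc 1 (q - 1)) (n * l)]
      rw [if_pos (mem_Icc.2 ⟨hnl, h⟩)]
      simp only [hH]
      rw [hlog]
      push_cast
      rw [map_mul, Complex.natCast_mul_natCast_cpow]
      ring
    · have h1 : (q : ℝ) ≤ ((n * l : ℕ) : ℝ) := by
        have : q ≤ n * l := by omega
        exact_mod_cast this
      have h2 : (l : ℝ) ≤ (q : ℝ) ^ κ := (Nat.le_floor_iff (by positivity)).1 hl.2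
      have h3 := G_zero hq1 hκ1 hG hl.1 h2 h1
      rw [hlog] at h3
      rw [h3]
      symm
      rw [zero_mul, zero_mul]
      apply sum_eq_zero
      intro k hk
      rw [mem_Icc] at hk
      rw [if_neg (by omega)]
  unfold AA MM
  rw [sum_mul_sum]
  rw [sum_congr rfl fun n hn => sum_congr rfl fun l hl => hF n hn l hl]
  have hswap : ∑ n ∈ Icc 1 q, ∑ l ∈ Icc 1 ⌊(q : ℝ) ^ κ⌋₊, ∑ k ∈ Icc 1 (q - 1),
      (if k = n * l then H k l else 0) = ∑ k ∈ Icc 1 (q - 1), ∑ l ∈ Icc 1 ⌊(q : ℝ) ^ κ⌋₊,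
        ∑ n ∈ Icc 1 q, (if k = n * l then H k l else 0) := by
    rw [sum_comm]
    rw [sum_comm (s := Icc 1 (q - 1))]
    refine sum_congr rfl fun l _ => ?_
    rw [sum_comm]
  rw [hswap]
  refine sum_congr rfl fun k hk => ?_
  rw [mem_Icc] at hk
  rw [bb_eq q κ G hk.1, mul_sum, mul_sum]
  refine sum_congr rfl fun l hl => ?_
  rw [mem_Icc] at hl
  by_cases hlk : l ∣ k
  · rw [if_pos hlk]
    have hkl : k = k / l * l := (Nat.div_mul_cancel hlk).symm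
    rw [sum_eq_single (k / l)]
    · rw [if_pos hkl]
    · intro n _ hn
      rw [if_neg]
      intro h
      apply hn
      rw [h, Nat.mul_div_cancel _ hl.1]
    · intro h
      exfalso
      apply h
      rw [mem_Icc]
      refine ⟨Nat.div_pos (Nat.le_of_dvd hk.1 hlk) hl.1, ?_⟩
      exact (Nat.div_le_self _ _).trans (by omega)
  · rw [if_neg hlk, mul_zero, mul_zero]
    apply sum_eq_zero
    intro n _
    rw [if_neg]
    rintro rfl
    exact hlk (dvd_mul_left _ _)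

lemma norm_natCast_cpow (t : ℝ) {k : ℕ} (hk : 1 ≤ k) :
    ‖(k : ℂ) ^ (-(1 / 2 + (t : ℂ) * Complex.I))‖ ^ 2 = 1 / k := by
  have hk0 : (0 : ℝ) < k := by exact_mod_cast hk
  rw [Complex.norm_natCast_cpow_of_pos hk]
  have h1 : (-(1 / 2 + (t : ℂ) * Complex.I)).re = -(1 / 2) := by simp
  rw [h1, ← Real.rpow_natCast, ← Real.rpow_mul hk0.le]
  norm_num
  rw [Real.rpow_neg_one]

lemma mw_abs {q κ : ℝ} (hq : 1 < q) (hκ : 0 < κ) {l : ℕ} (hl : 1 ≤ l) : |mw q κ l| ≤ 1 := by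
  unfold mw
  split_ifs with h
  · have hL : 0 < Real.log q := Real.log_pos hq
    have hl0 : (0 : ℝ) < l := by exact_mod_cast hl
    have h1 : 0 ≤ Real.log l := Real.log_nonneg (by exact_mod_cast hl)
    have h2 : Real.log l ≤ κ * Real.log q := by
      have h3 := Real.log_le_log hl0 h
      rwa [Real.log_rpow (by linarith)] at h3
    have h3 : 0 < κ * Real.log q := by positivity
    have h4 : Real.log l / (κ * Real.log q) ≤ 1 := (div_le_one h3).2 h2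
    have h5 : 0 ≤ Real.log l / (κ * Real.log q) := by positivity
    rw [abs_mul]
    have h6 : |(ArithmeticFunction.moebius l : ℝ)| ≤ 1 := by
      have := ArithmeticFunction.abs_moebius_le_one (n := l)
      exact_mod_cast this
    have h7 : |1 - Real.log l / (κ * Real.log q)| ≤ 1 := by
      rw [abs_le]
      constructor <;> linarith
    calc _ ≤ (1 : ℝ) * 1 := mul_le_mul h6 h7 (abs_nonneg _) zero_le_one
      _ = 1 := one_mul 1
  · simp

/-- the off-diagonal terms -/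
lemma off_eq {p ν m : ℕ} (χ : DirichletCharacter ℂ (p ^ ν)) {Q κ : ℝ} (t : ℝ) (G : ℝ → ℂ)
    (M h : ℕ) :
    ∑ n ∈ Icc 1 M, (χ ((n + p ^ m * h : ℕ) : ZMod (p ^ ν)) *
        (((n + p ^ m * h : ℕ) : ℂ) ^ (-(1 / 2 + (t : ℂ) * Complex.I)) *
          bb Q κ G (n + p ^ m * h))) *
        (starRingEnd ℂ) (χ (n : ZMod (p ^ ν)) *
          ((n : ℂ) ^ (-(1 / 2 + (t : ℂ) * Complex.I)) * bb Q κ G n)) =
      ∑ l1 ∈ Icc 1 ⌊Q ^ κ⌋₊, ∑ l2 ∈ Icc 1 ⌊Q ^ κ⌋₊, ((mw Q κ l1 : ℂ) * (mw Q κ l2 : ℂ)) *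
        ∑ n ∈ (Icc 1 M).filter (fun n => l2 ∣ n ∧ l1 ∣ n + p ^ m * h),
          FF χ ((p : ℤ) ^ m * (h : ℤ)) (n : ℤ) * (ww Q t G l1 (n + p ^ m * h) *
            (starRingEnd ℂ) (ww Q t G l2 n)) := by
  classical
  set z : ℂ := -(1 / 2 + (t : ℂ) * Complex.I) with hz
  have hterm : ∀ n ∈ Icc 1 M, (χ ((n + p ^ m * h : ℕ) : ZMod (p ^ ν)) *
        (((n + p ^ m * h : ℕ) : ℂ) ^ z * bb Q κ G (n + p ^ m * h))) *
        (starRingEnd ℂ) (χ (n : ZMod (p ^ ν)) * ((n : ℂ) ^ z * bb Q κ G n)) =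
      ∑ l1 ∈ Icc 1 ⌊Q ^ κ⌋₊, ∑ l2 ∈ Icc 1 ⌊Q ^ κ⌋₊, if l2 ∣ n ∧ l1 ∣ n + p ^ m * h then
        ((mw Q κ l1 : ℂ) * (mw Q κ l2 : ℂ)) *
          (FF χ ((p : ℤ) ^ m * (h : ℤ)) (n : ℤ) * (ww Q t G l1 (n + p ^ m * h) *
            (starRingEnd ℂ) (ww Q t G l2 n))) else 0 := by
    intro n hn
    rw [mem_Icc] at hn
    have hFF : FF χ ((p : ℤ) ^ m * (h : ℤ)) (n : ℤ) = χ ((n + p ^ m * h : ℕ) : ZMod (p ^ ν)) *
        (starRingEnd ℂ) (χ (n : ZMod (p ^ ν))) := by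
      unfold FF
      have e3 : ((n + p ^ m * h : ℕ) : ZMod (p ^ ν)) =
          (((n : ℤ) + (p : ℤ) ^ m * (h : ℤ) : ℤ) : ZMod (p ^ ν)) := by
        push_cast; ring
      have e4 : ((n : ℕ) : ZMod (p ^ ν)) = (((n : ℕ) : ℤ) : ZMod (p ^ ν)) := by push_cast; rfl
      rw [e3, ← e4]
    rw [bb_eq Q κ G (by omega : 1 ≤ n + p ^ m * h), bb_eq Q κ G hn.1, map_mul, map_mul, map_sum]
    have e : ∀ (A B C D : ℂ) (S T : ℂ), (A * (B * S)) * (C * (D * T)) =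
        (A * C * (B * D)) * (S * T) := by intros; ring
    rw [e, sum_mul_sum, mul_sum]
    refine sum_congr rfl fun l1 _ => ?_
    rw [mul_sum]
    refine sum_congr rfl fun l2 _ => ?_
    by_cases h1 : l1 ∣ n + p ^ m * h
    · by_cases h2 : l2 ∣ n
      · rw [if_pos h1, if_pos h2, if_pos ⟨h2, h1⟩, hFF]
        unfold ww
        rw [map_mul, map_mul, Complex.conj_ofReal, ← hz]
        ring
      · have h5 : ¬ (l2 ∣ n ∧ l1 ∣ n + p ^ m * h) := fun h3 => h2 h3.1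
        rw [if_neg h2, if_neg h5]
        simp
    · have h5 : ¬ (l2 ∣ n ∧ l1 ∣ n + p ^ m * h) := fun h3 => h1 h3.2
      rw [if_neg h1, if_neg h5]
      simp
  rw [sum_congr rfl hterm, sum_comm]
  refine sum_congr rfl fun l1 _ => ?_
  rw [sum_comm]
  refine sum_congr rfl fun l2 _ => ?_
  rw [mul_sum, sum_filter]

theorem msq (h1 : S_OFL) (h2 : S_DIAG) : S_MSQ := by
  classical
  intro δ hδ
  obtain ⟨κ₀, η, hκ₀, hη, hκη, hofl⟩ := h1 δ hδ
  obtain ⟨CD, hCD, hdiag⟩ := h2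
  refine ⟨min κ₀ (1 / 100), lt_min hκ₀ (by norm_num), min_le_right _ _, ?_⟩
  intro κ hκ hκ1 t
  have hκκ₀ : κ ≤ κ₀ := hκ1.trans (min_le_left _ _)
  have hκ100 : κ ≤ 1 / 100 := hκ1.trans (min_le_right _ _)
  refine ⟨CD / κ + 2, by positivity, ?_⟩
  intro p hpF hp7
  have hp : p.Prime := hpF.out
  obtain ⟨C, ν₁, hC, hofl⟩ := hofl κ hκ hκκ₀ t p hp hp7
  have hp0 : (0 : ℝ) < p := by exact_mod_cast hp.pos
  have hp1 : (1 : ℝ) ≤ p := by exact_mod_cast hp.one_le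
  have hplt : (1 : ℝ) < p := by exact_mod_cast hp.one_lt
  have hlp : 0 < Real.log p := Real.log_pos hplt
  obtain ⟨ν₂, hν₂⟩ : ∃ ν₂ : ℕ, ∀ ν ≥ ν₂, C ≤ ((p : ℝ) ^ ν) ^ (3 * η / 5) ∧
      1 ≤ κ * Real.log ((p : ℝ) ^ ν) := by
    refine ⟨⌈C / (3 * η / 5 * Real.log p)⌉₊ + ⌈1 / (κ * Real.log p)⌉₊, fun ν hν => ?_⟩
    have e1 : C / (3 * η / 5 * Real.log p) ≤ ν := by
      refine (Nat.le_ceil _).trans ?_
      exact_mod_cast (by omega : ⌈C / (3 * η / 5 * Real.log p)⌉₊ ≤ ν)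
    have e2 : 1 / (κ * Real.log p) ≤ ν := by
      refine (Nat.le_ceil _).trans ?_
      exact_mod_cast (by omega : ⌈1 / (κ * Real.log p)⌉₊ ≤ ν)
    constructor
    · rw [div_le_iff₀ (by positivity)] at e1
      rw [Real.rpow_def_of_pos (by positivity), Real.log_pow]
      have := Real.add_one_le_exp (ν * Real.log p * (3 * η / 5))
      linarith
    · rw [div_le_iff₀ (by positivity)] at e2
      rw [Real.log_pow]
      linarith
  refine ⟨max ν₁ (max ν₂ 1), ?_⟩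
  intro ν m hmν hν hm χ hχ B G hG a ha hsupp
  have hν1 : ν₁ ≤ ν := (le_max_left _ _).trans hν
  have hν2 : ν₂ ≤ ν := ((le_max_left _ _).trans (le_max_right _ _)).trans hν
  have hν3 : 1 ≤ ν := ((le_max_right _ _).trans (le_max_right _ _)).trans hν
  obtain ⟨hCQ, hκL⟩ := hν₂ ν hν2
  have hm1 : 1 ≤ m := by
    by_contra hcon
    have h0 : m = 0 := by omega
    rw [h0] at hm
    have : (0 : ℝ) < (19 / 58 + δ) * ν := by
      have : (0 : ℝ) < ν := by exact_mod_cast hν3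
      positivity
    simp at hm
    linarith
  have hcast : ((p ^ ν : ℕ) : ℝ) = (p : ℝ) ^ ν := by push_cast; rfl
  set Q : ℝ := (p : ℝ) ^ ν with hQ
  have hQ7 : (7 : ℝ) ≤ Q := by
    have h7 : (7 : ℝ) ≤ p := by exact_mod_cast hp7
    calc (7 : ℝ) ≤ p := h7
      _ = (p : ℝ) ^ 1 := (pow_one _).symm
      _ ≤ (p : ℝ) ^ ν := pow_le_pow_right₀ hp1 hν3
  have hQ1 : 1 < Q := by linarith
  have hQ0 : 0 < Q := by linarith
  have hq2 : 2 ≤ p ^ ν := by
    have : (2 : ℝ) ≤ ((p ^ ν : ℕ) : ℝ) := by rw [hcast]; linarith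
    exact_mod_cast this
  have : NeZero p := ⟨hp.ne_zero⟩
  have hGz : ∀ v, 1 / 2 + 2 * κ < v → G v = 0 := by
    intro v hv
    apply hsupp
    intro h
    have := h.2
    linarith
  set M : ℕ := p ^ ν - 1 with hM
  have hMlt : M < p ^ ν := by omega
  set f : ℕ → ℂ := fun k => χ (k : ZMod (p ^ ν)) *
    ((k : ℂ) ^ (-(1 / 2 + (t : ℂ) * Complex.I)) * bb Q κ G k) with hf
  have hf0 : ∀ n, M < n → f n = 0 := by
    intro n hn
    have h3 : Q ≤ n := by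
      rw [← hcast]
      exact_mod_cast (by omega : p ^ ν ≤ n)
    simp only [hf]
    rw [bb_zero hQ1 hκ100 hGz h3]
    ring
  have hdvd : p ^ m ∣ p ^ ν := pow_dvd_pow p hmν.le
  have hunit : ∀ n : ℕ, IsUnit (n : ZMod (p ^ m)) ↔ IsUnit (n : ZMod (p ^ ν)) := by
    intro n
    rw [ZMod.isUnit_iff_coprime, ZMod.isUnit_iff_coprime, Nat.coprime_pow_right_iff (by omega),
      Nat.coprime_pow_right_iff (by omega)]
  have hSS : ∀ θ : DirichletCharacter ℂ (p ^ m),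
      AA (χ * DirichletCharacter.changeLevel hdvd θ) G t *
        MM (χ * DirichletCharacter.changeLevel hdvd θ) κ t =
      ∑ n ∈ Icc 1 M, θ (n : ZMod (p ^ m)) * f n := by
    intro θ
    rw [prod_eq hq2 _ t hκ100 hGz]
    refine sum_congr rfl fun n _ => ?_
    rw [hcast, MulChar.mul_apply]
    by_cases hn : IsUnit (n : ZMod (p ^ ν))
    · obtain ⟨u, hu⟩ := hn
      have : (DirichletCharacter.changeLevel hdvd θ) (n : ZMod (p ^ ν)) =
          θ (n : ZMod (p ^ m)) := by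
        rw [← hu, DirichletCharacter.changeLevel_eq_cast_of_dvd, hu, ZMod.cast_natCast hdvd]
      rw [this]
      simp only [hf]
      ring
    · have h1 : χ (n : ZMod (p ^ ν)) = 0 := MulChar.map_nonunit _ hn
      simp only [hf]
      rw [h1]
      ring
  simp_rw [hSS]
  have horth := orth (d := p ^ m) (Icc 1 M) f (fun n _ hn => by
    simp only [hf]
    rw [MulChar.map_nonunit χ (fun h1 => hn ((hunit n).2 h1)), zero_mul])
  refine horth.trans ?_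
  have hcong := cong_sum (d := p ^ m) (M := M) (pow_pos hp.pos m) f hf0
  -- the diagonal
  have hMQ : (M : ℝ) ≤ Q ^ 2 := by
    have h3 : (M : ℝ) ≤ Q := by
      rw [← hcast]
      exact_mod_cast hMlt.le
    nlinarith
  have hD : ∑ n ∈ Icc 1 M, ‖f n‖ ^ 2 ≤ CD * B ^ 2 / κ := by
    refine le_trans (sum_le_sum fun n hn => ?_) (hdiag κ hκ (by linarith) B G hG Q hκL M hMQ)
    rw [mem_Icc] at hn
    simp only [hf]
    rw [norm_mul, norm_mul, mul_pow, mul_pow, norm_natCast_cpow t hn.1]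
    have h3 : ‖χ (n : ZMod (p ^ ν))‖ ^ 2 ≤ 1 := by
      have := χ.norm_le_one (n : ZMod (p ^ ν))
      exact pow_le_one₀ (norm_nonneg _) this
    have h4 : 0 ≤ 1 / (n : ℝ) * ‖bb Q κ G n‖ ^ 2 := by positivity
    calc _ ≤ 1 * (1 / (n : ℝ) * ‖bb Q κ G n‖ ^ 2) := mul_le_mul_of_nonneg_right h3 h4
      _ = ‖bb Q κ G n‖ ^ 2 / n := by ring
  -- the off-diagonal terms
  set Y : ℕ := ⌊Q ^ κ⌋₊ with hY
  have hYQ : (Y : ℝ) ≤ Q ^ κ := Nat.floor_le (by positivity)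
  have hoff1 : ∀ l1 ∈ Icc 1 Y, ∀ l2 ∈ Icc 1 Y,
      ∑ h ∈ Icc 1 (M / p ^ m), ‖((mw Q κ l1 : ℂ) * (mw Q κ l2 : ℂ)) *
        ∑ n ∈ (Icc 1 M).filter (fun n => l2 ∣ n ∧ l1 ∣ n + p ^ m * h),
          FF χ ((p : ℤ) ^ m * (h : ℤ)) (n : ℤ) * (ww Q t G l1 (n + p ^ m * h) *
            (starRingEnd ℂ) (ww Q t G l2 n))‖ ≤ C * B ^ 2 * Q ^ (-η) := by
    intro l1 hl1 l2 hl2
    rw [mem_Icc] at hl1 hl2
    have hrhs : 0 ≤ C * B ^ 2 * Q ^ (-η) := by positivity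
    have hl1Q : (l1 : ℝ) ≤ Q ^ κ := (Nat.le_floor_iff (by positivity)).1 hl1.2
    have hl2Q : (l2 : ℝ) ≤ Q ^ κ := (Nat.le_floor_iff (by positivity)).1 hl2.2
    have hnu : ∀ k : ℕ, p ∣ k → χ (k : ZMod (p ^ ν)) = 0 := by
      intro k hk
      apply MulChar.map_nonunit
      rw [ZMod.isUnit_iff_coprime, Nat.coprime_pow_right_iff (by omega)]
      intro hco
      have h3 : p ∣ Nat.gcd k p := Nat.dvd_gcd hk dvd_rfl
      rw [Nat.Coprime] at hco
      rw [hco] at h3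
      exact hp.one_lt.ne' (Nat.dvd_one.1 h3)
    by_cases hpl : p ∣ l1 ∨ p ∣ l2
    · refine le_trans (le_of_eq ?_) hrhs
      apply sum_eq_zero
      intro h _
      rw [norm_eq_zero]
      rw [sum_eq_zero, mul_zero]
      intro n hn
      rw [mem_filter] at hn
      have hFF : FF χ ((p : ℤ) ^ m * (h : ℤ)) (n : ℤ) = 0 := by
        unfold FF
        have e3 : (((n : ℤ) + (p : ℤ) ^ m * (h : ℤ) : ℤ) : ZMod (p ^ ν)) =
            ((n + p ^ m * h : ℕ) : ZMod (p ^ ν)) := by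
          push_cast; ring
        have e4 : (((n : ℕ) : ℤ) : ZMod (p ^ ν)) = ((n : ℕ) : ZMod (p ^ ν)) := by push_cast; rfl
        rw [e3, e4]
        rcases hpl with h3 | h3
        · rw [hnu _ (h3.trans hn.2.2), zero_mul]
        · rw [hnu _ (h3.trans hn.2.1), map_zero, mul_zero]
      rw [hFF, zero_mul]
    · push Not at hpl
      refine le_trans (sum_le_sum fun h _ => ?_) (hofl ν m hν1 hm1 hmν hm χ hχ B G hG a ha hsupp
        l1 l2 hl1.1 hl2.1 hl1Q hl2Q hpl.1 hpl.2 M hMlt)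
      rw [norm_mul, norm_mul, Complex.norm_real, Complex.norm_real, Real.norm_eq_abs,
        Real.norm_eq_abs]
      have h3 := mw_abs hQ1 hκ hl1.1
      have h4 := mw_abs hQ1 hκ hl2.1
      have h5 : |mw Q κ l1| * |mw Q κ l2| ≤ 1 := by
        calc _ ≤ (1 : ℝ) * 1 := mul_le_mul h3 h4 (abs_nonneg _) zero_le_one
          _ = 1 := one_mul 1
      calc _ ≤ 1 * _ := mul_le_mul_of_nonneg_right h5 (norm_nonneg _)
        _ = _ := one_mul _
  have hoff : ∑ h ∈ Icc 1 (M / p ^ m), ‖∑ n ∈ Icc 1 M, f (n + p ^ m * h) *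
      (starRingEnd ℂ) (f n)‖ ≤ B ^ 2 := by
    calc ∑ h ∈ Icc 1 (M / p ^ m), ‖∑ n ∈ Icc 1 M, f (n + p ^ m * h) * (starRingEnd ℂ) (f n)‖
        ≤ ∑ h ∈ Icc 1 (M / p ^ m), ∑ l1 ∈ Icc 1 Y, ∑ l2 ∈ Icc 1 Y,
          ‖((mw Q κ l1 : ℂ) * (mw Q κ l2 : ℂ)) *
          ∑ n ∈ (Icc 1 M).filter (fun n => l2 ∣ n ∧ l1 ∣ n + p ^ m * h),
            FF χ ((p : ℤ) ^ m * (h : ℤ)) (n : ℤ) * (ww Q t G l1 (n + p ^ m * h) *
              (starRingEnd ℂ) (ww Q t G l2 n))‖ := by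
          refine sum_le_sum fun h _ => ?_
          have e := off_eq (m := m) χ (Q := Q) (κ := κ) t G M h
          simp only [hf]
          rw [e]
          exact (norm_sum_le _ _).trans (sum_le_sum fun l1 _ => norm_sum_le _ _)
      _ = ∑ l1 ∈ Icc 1 Y, ∑ l2 ∈ Icc 1 Y, ∑ h ∈ Icc 1 (M / p ^ m),
          ‖((mw Q κ l1 : ℂ) * (mw Q κ l2 : ℂ)) *
          ∑ n ∈ (Icc 1 M).filter (fun n => l2 ∣ n ∧ l1 ∣ n + p ^ m * h),
            FF χ ((p : ℤ) ^ m * (h : ℤ)) (n : ℤ) * (ww Q t G l1 (n + p ^ m * h) *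
              (starRingEnd ℂ) (ww Q t G l2 n))‖ := by
          rw [sum_comm]
          refine sum_congr rfl fun l1 _ => ?_
          rw [sum_comm]
      _ ≤ ∑ l1 ∈ Icc 1 Y, ∑ l2 ∈ Icc 1 Y, C * B ^ 2 * Q ^ (-η) :=
          sum_le_sum fun l1 h3 => sum_le_sum fun l2 h4 => hoff1 l1 h3 l2 h4
      _ = (Y : ℝ) ^ 2 * (C * B ^ 2 * Q ^ (-η)) := by
          rw [sum_const, sum_const, Nat.card_Icc, Nat.add_sub_cancel, nsmul_eq_mul, nsmul_eq_mul]
          ring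
      _ ≤ (Q ^ κ) ^ 2 * (C * B ^ 2 * Q ^ (-η)) := by gcongr
      _ = (C * Q ^ (2 * κ - η)) * B ^ 2 := by
          rw [sub_eq_add_neg, Real.rpow_add hQ0, two_mul, Real.rpow_add hQ0]
          ring
      _ ≤ 1 * B ^ 2 := by
          gcongr
          calc C * Q ^ (2 * κ - η) ≤ Q ^ (3 * η / 5) * Q ^ (2 * κ - η) := by gcongr
            _ = Q ^ (3 * η / 5 + (2 * κ - η)) := (Real.rpow_add hQ0 _ _).symm
            _ ≤ Q ^ (0 : ℝ) := by
                apply Real.rpow_le_rpow_of_exponent_le hQ1.le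
                linarith
            _ = 1 := Real.rpow_zero _
      _ = B ^ 2 := one_mul _
  have hpm : ((p ^ m : ℕ) : ℝ) = (p : ℝ) ^ m := by push_cast; rfl
  rw [hpm]
  calc (p : ℝ) ^ m * _ ≤ (p : ℝ) ^ m * (CD * B ^ 2 / κ + 2 * B ^ 2) := by
        refine mul_le_mul_of_nonneg_left (hcong.trans ?_) (by positivity)
        exact add_le_add hD (mul_le_mul_of_nonneg_left hoff (by norm_num))
    _ = _ := by ring

end Pool.Agent.Y756.R10
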